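import Mathlib

/-!
# Weighted sums of squares of `R_{n,r}` modulo `n`

The question is answered in the affirmative: `a_r = 32 (r+1) ((2r+1)!!)^2` is a valid choice.

The proof rests on the identity (`r ≥ 1`)
`4 (r+1) S_{n,r} - 4 r S_{n,r-1} = (n/2) Ψ_{n,r}`, where `Ψ_{n,r}` is an explicit quadratic form in the
numbers `R_{n,r+1}, R_{n,r}, R_{n,r-1}, R_{n-1,r+1}, R_{n-1,r}, R_{n-1,r-1}` and the Delannoy numbers
`D_n, D_{n-1}`, on the integrality of `(2r+1)!! R_{n,r}` and on a closed form for `S_{n,0}`.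
-/

namespace Pool.Agent.Results.MP_6f4751_nt.BoundedMultiplier

open Finset

/-! ### Delannoy numbers -/

/-- `D_n(x) = ∑_{k ≤ n} C(n,k) C(n+k,k) x^k`. -/
def D {R : Type*} [CommRing R] (n : ℕ) (x : R) : R :=
  ∑ k ∈ range (n + 1), (n.choose k : R) * ((n + k).choose k : R) * x ^ k

/-- `b i k = C(k,i) C(k+i,i)`. -/
def b (i k : ℕ) : ℤ := (k.choose i : ℤ) * ((k + i).choose i : ℤ)

lemma b_zero (k : ℕ) : b 0 k = 1 := by simp [b]

lemma b_eq_zero {i k : ℕ} (h : k < i) : b i k = 0 := by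
  simp [b, Nat.choose_eq_zero_of_lt h]

/-- `(k - i) C(k,i) = (i+1) C(k,i+1)` over `ℚ`, for all `i k`. -/
lemma choose_succ_q (k i : ℕ) :
    ((i : ℚ) + 1) * (k.choose (i + 1) : ℚ) = ((k : ℚ) - i) * (k.choose i : ℚ) := by
  rcases lt_or_ge k i with h | h
  · rw [Nat.choose_eq_zero_of_lt h, Nat.choose_eq_zero_of_lt (by omega)]; simp
  · have h1 := Nat.choose_succ_right_eq k i
    have h2 : ((k.choose (i + 1) * (i + 1) : ℕ) : ℚ) = ((k.choose i * (k - i) : ℕ) : ℚ) := by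
      rw [h1]
    push_cast [Nat.cast_sub h] at h2
    linarith

/-- `(k+1-i) C(k+1,i) = (k+1) C(k,i)`. -/
lemma choose_top_q (k i : ℕ) :
    ((k : ℚ) + 1 - i) * ((k + 1).choose i : ℚ) = ((k : ℚ) + 1) * (k.choose i : ℚ) := by
  rcases lt_or_ge k i with h | h
  · rw [Nat.choose_eq_zero_of_lt h]
    rcases eq_or_lt_of_le (Nat.succ_le_of_lt h) with h' | h'
    · have : (i : ℚ) = k + 1 := by rw [← h']; push_cast; ring
      rw [this]; ring
    · rw [Nat.choose_eq_zero_of_lt (by omega : k + 1 < i)]; simp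
  · have h1 := Nat.choose_mul_succ_eq k i
    have h2 : ((k.choose i * (k + 1) : ℕ) : ℚ) = (((k + 1).choose i * (k + 1 - i) : ℕ) : ℚ) := by
      rw [h1]
    push_cast [Nat.cast_sub (by omega : i ≤ k + 1)] at h2
    linarith

/-- `(i+1) C(k+i+1,i+1) = (k+i+1) C(k+i,i)`. -/
lemma choose_diag_q (k i : ℕ) :
    ((i : ℚ) + 1) * ((k + (i + 1)).choose (i + 1) : ℚ) =
      ((k : ℚ) + i + 1) * ((k + i).choose i : ℚ) := by
  have h1 := Nat.add_one_mul_choose_eq (k + i) i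
  have h2 : (((k + i + 1) * (k + i).choose i : ℕ) : ℚ) =
      (((k + i + 1).choose (i + 1) * (i + 1) : ℕ) : ℚ) := by rw [h1]
  push_cast at h2
  have h3 : k + (i + 1) = k + i + 1 := by ring
  rw [h3]
  linarith

lemma b_succ_q (i k : ℕ) :
    ((i : ℚ) + 1) ^ 2 * (b (i + 1) k : ℚ) =
      ((k : ℚ) * (k + 1) - (i : ℚ) * (i + 1)) * (b i k : ℚ) := by
  have h1 := choose_succ_q k i
  have h2 := choose_diag_q k i
  simp only [b]
  push_cast
  linear_combination (((i : ℚ) + 1) * ((k + (i + 1)).choose (i + 1) : ℚ)) * h1 +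
    (((k : ℚ) - i) * (k.choose i : ℚ)) * h2

lemma D_eq {R : Type*} [CommRing R] (k M : ℕ) (h : k < M) (x : R) :
    D k x = ∑ i ∈ range M, ((b i k : ℤ) : R) * x ^ i := by
  have h1 : D k x = ∑ i ∈ range (k + 1), ((b i k : ℤ) : R) * x ^ i := by
    refine sum_congr rfl fun i _ => ?_
    simp only [b]
    push_cast
    ring
  rw [h1]
  refine sum_subset (range_subset_range.2 (by omega)) fun i _ hi => ?_
  rw [b_eq_zero (by simpa using hi)]
  simp

lemma b_top_q (n k : ℕ) :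
    ((n : ℚ) + 1 - k) * (b k (n + 1) : ℚ) = ((n : ℚ) + 1 + k) * (b k n : ℚ) := by
  have e1 := choose_top_q n k
  have e2 := choose_top_q (n + k) k
  simp only [b]
  push_cast
  push_cast at e2
  rw [show n + 1 + k = n + k + 1 by ring]
  have e3 : ((n : ℚ) + 1) ≠ 0 := by positivity
  have e4 : ((n : ℚ) + 1) * ((n + k + 1).choose k : ℚ) =
      ((n : ℚ) + k + 1) * ((n + k).choose k : ℚ) := by linear_combination e2
  apply mul_left_cancel₀ e3
  linear_combination (((n : ℚ) + 1) * ((n + k + 1).choose k : ℚ)) * e1 +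
    (((n : ℚ) + 1) * (n.choose k : ℚ)) * e4

lemma D_rec (n : ℕ) (x : ℚ) :
    ((n : ℚ) + 2) * D (n + 2) x + (n + 1) * D n x = (2 * n + 3) * ((1 + 2 * x) * D (n + 1) x) := by
  have key : ∀ i : ℕ, ((n : ℚ) + 2) * (b (i + 1) (n + 2) : ℚ) + (n + 1) * (b (i + 1) n : ℚ) =
      (2 * n + 3) * ((b (i + 1) (n + 1) : ℚ) + 2 * (b i (n + 1) : ℚ)) := by
    intro i
    have e1 := b_top_q n i
    have e2 := b_top_q (n + 1) i
    have e5 := b_succ_q i n
    have e6 := b_succ_q i (n + 1)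
    have e7 := b_succ_q i (n + 2)
    have hi : ((i : ℚ) + 1) ^ 2 ≠ 0 := by positivity
    push_cast at *
    apply mul_left_cancel₀ hi
    rw [show n + 1 + 1 = n + 2 by ring] at e2
    linear_combination ((n : ℚ) + 2) * (e7 + ((n : ℚ) + 3 + i) * e2) +
      ((n : ℚ) + 1) * (e5 - ((n : ℚ) - i) * e1) - (2 * (n : ℚ) + 3) * e6
  rw [add_mul 1 (2 * x), one_mul, D_eq (n + 2) (n + 3 + 1) (by omega),
    D_eq n (n + 3 + 1) (by omega)]
  have h2 : 2 * x * D (n + 1) x = ∑ i ∈ range (n + 3), 2 * ((b i (n + 1) : ℤ) : ℚ) * x ^ (i + 1) := by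
    rw [D_eq (n + 1) (n + 3) (by omega), mul_sum]
    refine sum_congr rfl fun i _ => by ring
  rw [h2, D_eq (n + 1) (n + 3 + 1) (by omega)]
  simp only [sum_range_succ' _ (n + 3), b_zero]
  simp only [mul_add, mul_sum]
  have h3 : ∀ i ∈ range (n + 3), ((n : ℚ) + 2) * ((b (i + 1) (n + 2) : ℚ) * x ^ (i + 1)) =
      (2 * n + 3) * ((b (i + 1) (n + 1) : ℚ) * x ^ (i + 1)) +
      (2 * n + 3) * (2 * (b i (n + 1) : ℚ) * x ^ (i + 1)) -
      ((n : ℚ) + 1) * ((b (i + 1) n : ℚ) * x ^ (i + 1)) := by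
    intro i _
    linear_combination (x ^ (i + 1)) * key i
  rw [sum_congr rfl h3, sum_sub_distrib, sum_add_distrib]
  push_cast
  ring

/-! ### The transform `f ↦ ∑_k C(n+k,2k) f k` -/

/-- `T f n = ∑_{k ≤ n} C(n+k,2k) f(k)`. -/
def T (f : ℕ → ℤ) (n : ℕ) : ℤ := ∑ k ∈ range (n + 1), ((n + k).choose (2 * k) : ℤ) * f k

/-- `a k = C(2k,k)/(2k-1)`. -/
def a : ℕ → ℤ
  | 0 => -1
  | k + 1 => 2 * (catalan k : ℤ)

/-- `g k = C(2k,k)`. -/
def g (k : ℕ) : ℤ := ((2 * k).choose k : ℤ)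

lemma g_succ (k : ℕ) : ((k : ℤ) + 1) * g (k + 1) = 2 * (2 * k + 1) * g k := by
  have h := Nat.succ_mul_centralBinom_succ k
  simp only [Nat.centralBinom] at h
  simp only [g]
  have h2 : (((k + 1) * (2 * (k + 1)).choose (k + 1) : ℕ) : ℤ) =
      ((2 * (2 * k + 1) * (2 * k).choose k : ℕ) : ℤ) := by rw [h]
  push_cast at h2
  exact h2

lemma catalan_g (k : ℕ) : ((k : ℤ) + 1) * (catalan k : ℤ) = g k := by
  have h := succ_mul_catalan_eq_centralBinom k
  simp only [Nat.centralBinom] at h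
  simp only [g]
  exact_mod_cast h

lemma a_spec (k : ℕ) : (2 * (k : ℤ) - 1) * a k = g k := by
  cases k with
  | zero => simp [a, g]
  | succ k =>
    have h1 := g_succ k
    have h2 := catalan_g k
    have h3 : ((k : ℤ) + 1) ≠ 0 := by positivity
    apply mul_left_cancel₀ h3
    rw [h1, ← h2]
    simp only [a]
    push_cast
    ring

lemma choose_T (n k : ℕ) :
    ((n : ℤ) + 1 - k) * ((n + 1 + k).choose (2 * k) : ℤ) =
      ((n : ℤ) + 1 + k) * ((n + k).choose (2 * k) : ℤ) := by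
  rcases lt_or_ge (n + 1) k with h | h
  · rw [Nat.choose_eq_zero_of_lt (by omega), Nat.choose_eq_zero_of_lt (by omega)]; simp
  · have h1 := Nat.choose_mul_succ_eq (n + k) (2 * k)
    have h2 : (((n + k).choose (2 * k) * (n + k + 1) : ℕ) : ℤ) =
        (((n + k + 1).choose (2 * k) * (n + k + 1 - 2 * k) : ℕ) : ℤ) := by rw [h1]
    push_cast [Nat.cast_sub (by omega : 2 * k ≤ n + k + 1)] at h2
    rw [show n + 1 + k = n + k + 1 by ring]
    linarith

lemma T_ext (f : ℕ → ℤ) (n N : ℕ) (h : n < N) :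
    T f n = ∑ k ∈ range N, ((n + k).choose (2 * k) : ℤ) * f k := by
  refine sum_subset (range_subset_range.2 (by omega)) fun k _ hk => ?_
  have hk' : n + 1 ≤ k := by simpa using hk
  rw [Nat.choose_eq_zero_of_lt (by omega)]
  simp

lemma T_rec (s t : ℤ) (f h : ℕ → ℤ) (H : ∀ k : ℕ, (2 * (k : ℤ) - s) * f k = t * h k) (n : ℕ) :
    (2 * (n : ℤ) + 2 - s) * T f (n + 1) =
      (2 * (n : ℤ) + 2 + s) * T f n + t * (T h (n + 1) + T h n) := by
  rw [T_ext f (n + 1) (n + 2) (by omega), T_ext f n (n + 2) (by omega),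
    T_ext h (n + 1) (n + 2) (by omega), T_ext h n (n + 2) (by omega), ← sum_add_distrib,
    mul_sum, mul_sum, mul_sum, ← sum_add_distrib]
  refine sum_congr rfl fun k _ => ?_
  have h1 := H k
  have h2 := choose_T n k
  linear_combination (((n + 1 + k).choose (2 * k) : ℤ) + ((n + k).choose (2 * k) : ℤ)) * h1 +
    2 * f k * h2

/-- The integers `R_n`. -/
def Rz (n : ℕ) : ℤ := T a n

/-- The Delannoy numbers. -/
def Dz (n : ℕ) : ℤ := T g n

lemma R_rec (n : ℕ) : (2 * (n : ℤ) + 1) * Rz (n + 1) =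
    (2 * (n : ℤ) + 3) * Rz n + Dz (n + 1) + Dz n := by
  have h := T_rec 1 1 a g (fun k => by rw [a_spec, one_mul]) n
  simp only [Rz, Dz]
  linear_combination h

lemma term_D (n k : ℕ) :
    (n + k).choose (2 * k) * (2 * k).choose k = n.choose k * (n + k).choose k := by
  rcases lt_or_ge n k with h | h
  · rw [Nat.choose_eq_zero_of_lt h, Nat.choose_eq_zero_of_lt (by omega)]; simp
  · rw [Nat.choose_mul (by omega : k ≤ 2 * k)]
    rw [show n + k - k = n by omega, show 2 * k - k = k by omega, mul_comm]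

lemma Dz_eq (n : ℕ) : Dz n = D n (1 : ℤ) := by
  simp only [Dz, T, D, g, one_pow, mul_one]
  refine sum_congr rfl fun k _ => ?_
  exact_mod_cast term_D n k

lemma D_cast (n : ℕ) : ((D n (1 : ℤ) : ℤ) : ℚ) = D n (1 : ℚ) := by
  simp [D]

lemma Dz_rec (n : ℕ) : ((n : ℤ) + 2) * Dz (n + 2) + (n + 1) * Dz n =
    3 * (2 * n + 3) * Dz (n + 1) := by
  have h := D_rec n 1
  rw [← D_cast, ← D_cast, ← D_cast, ← Dz_eq, ← Dz_eq, ← Dz_eq] at h
  have h2 : (((((n : ℤ) + 2) * Dz (n + 2) + (n + 1) * Dz n : ℤ)) : ℚ) =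
      ((3 * (2 * n + 3) * Dz (n + 1) : ℤ) : ℚ) := by
    push_cast
    linear_combination h
  exact_mod_cast h2

/-! ### Closed forms -/

/-- The quadratic form for `R`. -/
def EE {R : Type*} [CommRing R] (n r d e : R) : R :=
  8 * (2 * n ^ 3 - n) * r ^ 2 + (4 - 8 * n - 24 * n ^ 2) * r * d + (4 + 8 * n + 8 * n ^ 2) * r * e +
    (4 + 7 * n) * d ^ 2 + (4 + 6 * n) * d * e - n * e ^ 2

/-- `SR n = ∑_{k<n} (2k+1) R_k^2`. -/
def SR (n : ℕ) : ℤ := ∑ k ∈ range n, (2 * (k : ℤ) + 1) * Rz k ^ 2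

lemma closed_R (n : ℕ) : 8 * (2 * (n : ℤ) + 3) ^ 2 * SR (n + 1) =
    ((n : ℤ) + 1) * EE ((n : ℤ) + 1) (Rz (n + 1)) (Dz (n + 1)) (Dz n) := by
  induction n with
  | zero => decide +kernel
  | succ n ih =>
    have hS : SR (n + 1 + 1) = SR (n + 1) + (2 * ((n : ℤ) + 1) + 1) * Rz (n + 1) ^ 2 := by
      simp only [SR]
      rw [sum_range_succ _ (n + 1)]
      push_cast
      ring
    have h1 := R_rec (n + 1)
    have h2 := Dz_rec n
    rw [show n + 1 + 1 = n + 2 by ring] at *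
    rw [hS]
    generalize Rz (n + 2) = r2 at *
    generalize Rz (n + 1) = r at *
    generalize Dz (n + 2) = d2 at *
    generalize Dz (n + 1) = d at *
    generalize Dz n = e at *
    generalize SR (n + 1) = S at *
    push_cast at *
    have ihq : 8 * (2 * (n : ℚ) + 3) ^ 2 * S = ((n : ℚ) + 1) * EE ((n : ℚ) + 1) r d e := by
      have := congrArg (Int.cast : ℤ → ℚ) ih
      simp only [EE] at this ⊢
      push_cast at this
      exact this
    have h1q : (2 * ((n : ℚ) + 1) + 1) * r2 = (2 * ((n : ℚ) + 1) + 3) * r + d2 + d := by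
      exact_mod_cast h1
    have h2q : ((n : ℚ) + 2) * d2 + (n + 1) * e = 3 * (2 * n + 3) * d := by
      exact_mod_cast h2
    have hd2 : (d2 : ℚ) = (3 * (2 * n + 3) * d - (n + 1) * e) / ((n : ℚ) + 2) := by
      have : (n : ℚ) + 2 ≠ 0 := by positivity
      field_simp
      linear_combination h2q
    have hr2 : (r2 : ℚ) = ((2 * ((n : ℚ) + 1) + 3) * r + d2 + d) / (2 * ((n : ℚ) + 1) + 1) := by
      have : 2 * ((n : ℚ) + 1) + 1 ≠ 0 := by positivity
      field_simp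
      linear_combination h1q
    have hSq : (S : ℚ) = ((n : ℚ) + 1) * EE ((n : ℚ) + 1) r d e / (8 * (2 * (n : ℚ) + 3) ^ 2) := by
      have : 8 * (2 * (n : ℚ) + 3) ^ 2 ≠ 0 := by positivity
      field_simp
      linear_combination ihq
    have goalq : 8 * (2 * ((n : ℚ) + 1) + 3) ^ 2 * (S + (2 * ((n : ℚ) + 1) + 1) * r ^ 2) =
        (((n : ℚ) + 1) + 1) * EE (((n : ℚ) + 1) + 1) r2 d2 d := by
      have e1 : (n : ℚ) + 2 ≠ 0 := by positivity
      have e2 : 2 * ((n : ℚ) + 1) + 1 ≠ 0 := by positivity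
      have e3 : (2 * (n : ℚ) + 3) ≠ 0 := by positivity
      rw [hSq, hr2, hd2]
      simp only [EE]
      field_simp
      ring
    simp only [EE] at goalq ⊢
    exact_mod_cast goalq

/-! ### The numbers `R_{n,r}` -/

/-- The numbers `R_{n,t}` for integers `t`. -/
def RR (n : ℕ) (t : ℤ) : ℚ :=
  ∑ k ∈ range (n + 1), ((n + k).choose (2 * k) : ℚ) * (((2 * k).choose k : ℚ) /
    (2 * (k : ℚ) - 2 * t - 1))

/-- The Delannoy numbers as rational numbers. -/
def Q (n : ℕ) : ℚ := (Dz n : ℚ)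

lemma Q_rec (n : ℕ) : ((n : ℚ) + 2) * Q (n + 2) + (n + 1) * Q n = 3 * (2 * n + 3) * Q (n + 1) := by
  have h := Dz_rec n
  simp only [Q]
  exact_mod_cast h

lemma odd_ne (k t : ℤ) : (2 * (k : ℚ) - 2 * t - 1) ≠ 0 := by
  intro h
  have h2 : 2 * k - 2 * t - 1 = 0 := by exact_mod_cast h
  omega

lemma Rec (n : ℕ) (t : ℤ) : (2 * (n : ℚ) + 1 - 2 * t) * RR (n + 1) t =
    (2 * (n : ℚ) + 3 + 2 * t) * RR n t + Q (n + 1) + Q n := by
  have e1 : RR n t = ∑ k ∈ range (n + 2), ((n + k).choose (2 * k) : ℚ) *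
      (((2 * k).choose k : ℚ) / (2 * (k : ℚ) - 2 * t - 1)) := by
    simp only [RR]
    rw [sum_range_succ _ (n + 1), Nat.choose_eq_zero_of_lt (by omega : n + (n + 1) < 2 * (n + 1))]
    simp
  have e2 : Q n = ∑ k ∈ range (n + 2), ((n + k).choose (2 * k) : ℚ) * ((2 * k).choose k : ℚ) := by
    simp only [Q, Dz]
    rw [T_ext g n (n + 2) (by omega)]
    simp only [g]
    push_cast
    rfl
  have e3 : Q (n + 1) = ∑ k ∈ range (n + 2), ((n + 1 + k).choose (2 * k) : ℚ) *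
      ((2 * k).choose k : ℚ) := by
    simp only [Q, Dz, T, g]
    push_cast
    rfl
  have e4 : RR (n + 1) t = ∑ k ∈ range (n + 2), ((n + 1 + k).choose (2 * k) : ℚ) *
      (((2 * k).choose k : ℚ) / (2 * (k : ℚ) - 2 * t - 1)) := rfl
  rw [e1, e2, e3, e4, mul_sum, mul_sum, ← sum_add_distrib, ← sum_add_distrib]
  refine sum_congr rfl fun k _ => ?_
  have h1 : ((n : ℚ) + 1 - k) * ((n + 1 + k).choose (2 * k) : ℚ) =
      ((n : ℚ) + 1 + k) * ((n + k).choose (2 * k) : ℚ) := by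
    have := choose_T n k
    exact_mod_cast this
  have h2 : (2 * (k : ℚ) - 2 * t - 1) ≠ 0 := by
    have := odd_ne k t
    exact_mod_cast this
  have h3 : (2 * (k : ℚ) - 2 * t - 1) * (((2 * k).choose k : ℚ) / (2 * (k : ℚ) - 2 * t - 1)) =
      ((2 * k).choose k : ℚ) := mul_div_cancel₀ _ h2
  generalize ((2 * k).choose k : ℚ) / (2 * (k : ℚ) - 2 * t - 1) = y at *
  rw [← h3]
  linear_combination 2 * y * h1

lemma RR_zero (t : ℤ) : RR 0 t = -1 / (2 * (t : ℚ) + 1) := by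
  simp only [RR]
  rw [sum_range_one]
  simp
  rw [← neg_div_neg_eq]
  ring_nf

lemma Q_zero : Q 0 = 1 := by
  simp [Q, Dz, T, g]

lemma Q_one : Q 1 = 3 := by
  have : Dz 1 = 3 := by decide +kernel
  simp [Q, this]

lemma Q_rec' (N : ℕ) : ((N : ℚ) + 1) * Q (N + 1) + N * Q (N - 1) = 3 * (2 * N + 1) * Q N := by
  cases N with
  | zero => rw [Q_one, Q_zero]; norm_num
  | succ n =>
    have h := Q_rec n
    push_cast
    linear_combination h

/-- The eigenvalue equation. -/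
lemma Eig (n : ℕ) (t : ℤ) : (2 * (t : ℚ) + 3) ^ 2 * RR n (t + 1) =
    (2 * (n : ℚ) - 2 * t - 1) * (2 * n + 2 * t + 3) * RR n t -
      n * (3 * Q n - Q (n - 1)) - 2 * (2 * t + 3) * Q n := by
  suffices H : (2 * (t : ℚ) + 3) ^ 2 * RR n (t + 1) =
    (2 * (n : ℚ) - 2 * t - 1) * (2 * n + 2 * t + 3) * RR n t +
      (n + 1) * (3 * Q n - Q (n + 1)) - 2 * (2 * t + 3) * Q n by
    have h := Q_rec' n
    linear_combination H - h
  induction n with
  | zero =>
    rw [RR_zero, RR_zero, Q_zero, Q_one]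
    have h : (2 * (t : ℚ) + 1) ≠ 0 := by
      have := odd_ne 0 t
      intro h; apply this; push_cast; linear_combination -h
    have h2 : (2 * (t : ℚ) + 3) ≠ 0 := by
      have := odd_ne (-1) t
      intro h; apply this; push_cast; linear_combination -h
    have h3 : (2 * ((t + 1 : ℤ) : ℚ) + 1) = 2 * t + 3 := by push_cast; ring
    rw [h3]
    push_cast
    field_simp
    ring
  | succ n ih =>
    have h1 := Rec n (t + 1)
    have h2 := Rec n t
    have h3 := Q_rec n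
    have h4 : (2 * (n : ℚ) - 2 * t - 1) ≠ 0 := by
      have := odd_ne n t
      exact_mod_cast this
    apply mul_left_cancel₀ h4
    push_cast at *
    rw [show n + 1 + 1 = n + 2 by ring]
    linear_combination (2 * (t : ℚ) + 3) ^ 2 * h1 + (2 * (n : ℚ) + 5 + 2 * t) * ih -
      (2 * (n : ℚ) - 1 - 2 * t) * (2 * n + 2 * t + 5) * h2 + (2 * (n : ℚ) - 1 - 2 * t) * h3

lemma L1 (N : ℕ) (t : ℤ) : ((N : ℚ) + 1) * RR (N + 1) (t + 1) + N * RR (N - 1) (t + 1) -
    (2 * N + 1) * RR N (t + 1) = 2 * (2 * N + 1) * RR N t := by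
  cases N with
  | zero =>
    have h1 := Rec 0 (t + 1)
    have h : (2 * (t : ℚ) + 1) ≠ 0 := by
      have := odd_ne 0 t
      intro h; apply this; push_cast; linear_combination -h
    have h2 : (2 * (t : ℚ) + 3) ≠ 0 := by
      have := odd_ne (-1) t
      intro h; apply this; push_cast; linear_combination -h
    have h3 : RR 0 (t + 1) = -1 / (2 * (t : ℚ) + 3) := by
      rw [RR_zero]; push_cast; congr 1; ring
    rw [h3, Q_zero, Q_one] at h1
    rw [h3, RR_zero]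
    push_cast at h1 ⊢
    have h4 : RR (0 + 1) (t + 1) = -(6 * (t : ℚ) + 7) / ((2 * t + 1) * (2 * t + 3)) := by
      rw [eq_div_iff (mul_ne_zero h h2)]
      field_simp at h1
      linear_combination -h1
    have hx : (2 * (t : ℚ) + 1) * (2 * (t : ℚ) + 1)⁻¹ = 1 := mul_inv_cancel₀ h
    have hy : (2 * (t : ℚ) + 3) * (2 * (t : ℚ) + 3)⁻¹ = 1 := mul_inv_cancel₀ h2
    rw [h4, div_eq_mul_inv, div_eq_mul_inv, div_eq_mul_inv, mul_inv]
    generalize (2 * (t : ℚ) + 1)⁻¹ = x at *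
    generalize (2 * (t : ℚ) + 3)⁻¹ = y at *
    linear_combination (-y) * hx - 2 * x * hy
  | succ n =>
    have h1 := Rec n (t + 1)
    have h2 := Rec (n + 1) (t + 1)
    have h3 := Eig (n + 1) t
    have h4 := Q_rec n
    simp only [Nat.add_sub_cancel] at *
    rw [show n + 1 + 1 = n + 2 by ring] at *
    push_cast at *
    have k1 : (2 * (n : ℚ) + 5 + 2 * t) ≠ 0 := by
      have := odd_ne (n + 3) (-t)
      push_cast at this
      intro h; apply this; linear_combination h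
    have k2 : (2 * (n : ℚ) + 1 - 2 * t) ≠ 0 := by
      have := odd_ne (n + 1) t
      push_cast at this
      intro h; apply this; linear_combination h
    apply mul_left_cancel₀ (mul_ne_zero k1 k2)
    linear_combination (((n : ℚ) + 2) * (2 * (n : ℚ) + 5 + 2 * t)) * h2 -
      (((n : ℚ) + 1) * (2 * (n : ℚ) + 1 - 2 * t)) * h1 + (2 * (2 * (n : ℚ) + 3)) * h3 +
      (2 * (n : ℚ) + 5 + 2 * t) * h4

/-- The form `Ψ`. -/
def Psi (N t A' A B' B C' C d' d : ℚ) : ℚ :=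
  2 * (t + 3 / 2) ^ 2 * (A' * B - A * B') - (t + 3 / 2) ^ 2 * (A' * C - A * C') -
    4 * t * (B' * C - B * C') +
    N / 4 * (((3 * d' - d) * B - (d' - 3 * d) * B') - ((3 * d' - d) * C - (d' - 3 * d) * C')) +
    (t + 1 / 2) * (d' * B - d * B') - (t + 3 / 2) * (d' * C - d * C')

lemma Psi_step (N : ℕ) (t : ℤ) :
    ((N : ℚ) + 1) / 2 * Psi ((N : ℚ) + 1) t (RR (N + 1) (t + 1)) (RR N (t + 1)) (RR (N + 1) t)
      (RR N t) (RR (N + 1) (t - 1)) (RR N (t - 1)) (Q (N + 1)) (Q N) -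
    (N : ℚ) / 2 * Psi N t (RR N (t + 1)) (RR (N - 1) (t + 1)) (RR N t) (RR (N - 1) t)
      (RR N (t - 1)) (RR (N - 1) (t - 1)) (Q N) (Q (N - 1)) =
    (2 * (N : ℚ) + 1) * (4 * ((t : ℚ) + 1) * RR N t ^ 2 - 4 * t * RR N (t - 1) ^ 2) := by
  have lA := L1 N t
  have lB := L1 N (t - 1)
  have lC := L1 N (t - 2)
  have lD := Q_rec' N
  have e0 := Eig N t
  have e1 := Eig N (t - 1)
  have e2 := Eig N (t - 2)
  rw [show t - 1 + 1 = t by ring] at *
  rw [show t - 2 + 1 = t - 1 by ring] at *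
  push_cast at *
  simp only [Psi]
  generalize RR (N + 1) (t + 1) = Ap at *
  generalize RR N (t + 1) = A at *
  generalize RR (N - 1) (t + 1) = Am at *
  generalize RR (N + 1) t = Bp at *
  generalize RR N t = B at *
  generalize RR (N - 1) t = Bm at *
  generalize RR (N + 1) (t - 1) = Cp at *
  generalize RR N (t - 1) = C at *
  generalize RR (N - 1) (t - 1) = Cm at *
  generalize RR N (t - 2) = E at *
  generalize Q (N + 1) = Dp at *
  generalize Q N = D at *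
  generalize Q (N - 1) = Dm at *
  generalize (N : ℚ) = n at *
  generalize (t : ℚ) = r at *
  linear_combination ((r + 3 / 2) ^ 2 * B - (r + 3 / 2) ^ 2 / 2 * C) * lA +
    (-(r + 3 / 2) ^ 2 * A - 2 * r * C - (r + 1 / 2) / 2 * D - 1 / 2 * (n / 4 * (3 * D - Dm))) * lB +
    ((r + 3 / 2) ^ 2 / 2 * A + 2 * r * B + (r + 3 / 2) / 2 * D + 1 / 2 * (n / 4 * (3 * D - Dm))) * lC +
    ((r + 1 / 2) / 2 * B - (r + 3 / 2) / 2 * C - (n + 1) * (Bp - Cp) / 8 +
      3 * (n + 1) * (B - C) / 8) * lD +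
    ((2 * n + 1) / 4 * (-2 * C + E)) * e0 + ((2 * n + 1) / 2 * B) * e1 -
    ((2 * n + 1) / 4 * B) * e2

/-- The rational numbers `R_{n,r}` of the problem. -/
def R (n r : ℕ) : ℚ :=
  ∑ k ∈ range (n + 1), ((n + k).choose (2 * k) : ℚ) * ((2 * k).choose k : ℚ) *
    (1 / (2 * (k : ℚ) - 2 * r - 1))

/-- The rational numbers `S_{n,r}` of the problem. -/
def S (n r : ℕ) : ℚ := ∑ k ∈ range n, (2 * (k : ℚ) + 1) * R k r ^ 2

lemma R_eq (n r : ℕ) : R n r = RR n r := by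
  simp only [R, RR]
  refine sum_congr rfl fun k _ => ?_
  push_cast
  rw [mul_assoc, mul_one_div]

/-- `(n/2) Ψ_{n,t}`. -/
def F (N : ℕ) (t : ℤ) : ℚ :=
  (N : ℚ) / 2 * Psi N t (RR N (t + 1)) (RR (N - 1) (t + 1)) (RR N t) (RR (N - 1) t)
      (RR N (t - 1)) (RR (N - 1) (t - 1)) (Q N) (Q (N - 1))

/-- **The main identity** `4 (r+1) S_{n,r} - 4 r S_{n,r-1} = (n/2) Ψ_{n,r}`. -/
lemma main_identity (N r : ℕ) :
    4 * ((r : ℚ) + 2) * S N (r + 1) - 4 * ((r : ℚ) + 1) * S N r = F N (r + 1) := by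
  induction N with
  | zero => simp [S, F]
  | succ N ih =>
    have h := Psi_step N ((r : ℤ) + 1)
    have hS : ∀ r, S (N + 1) r = S N r + (2 * (N : ℚ) + 1) * R N r ^ 2 := by
      intro r
      simp only [S]
      rw [sum_range_succ]
    rw [hS, hS, R_eq, R_eq]
    have e1 : ((r : ℤ) + 1 - 1) = r := by ring
    rw [e1] at h
    have h2 : F (N + 1) (r + 1) = F N (r + 1) + (2 * (N : ℚ) + 1) *
        (4 * (((r : ℤ) + 1 : ℤ) + 1) * RR N ((r : ℤ) + 1) ^ 2 -
          4 * ((r : ℤ) + 1 : ℤ) * RR N (r : ℤ) ^ 2) := by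
      rw [← h]
      simp only [F, Nat.add_sub_cancel, e1]
      push_cast
      ring
    push_cast at *
    rw [h2]
    linear_combination ih

/-! ### Integrality -/

/-- The double factorial `(2r+1)!! = ∏_{i ≤ r} (2i+1)`. -/
def df (r : ℕ) : ℤ := ∏ i ∈ range (r + 1), (2 * (i : ℤ) + 1)

lemma df_succ (r : ℕ) : df (r + 1) = df r * (2 * (r : ℤ) + 3) := by
  simp only [df]
  rw [prod_range_succ _ (r + 1)]
  push_cast
  ring

lemma df_zero : df 0 = 1 := by simp [df]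

lemma df_ne (r : ℕ) : df r ≠ 0 := by
  simp only [df]
  refine prod_ne_zero_iff.2 fun i _ => by omega

/-- `A r k = (2r+1)!! C(2k,k)/(2k-2r-1)`. -/
def A : ℕ → ℕ → ℤ
  | 0, k => a k
  | r + 1, 0 => -df r
  | r + 1, k + 1 => df r * a (k + 1) + 8 * (r + 1) * A r k

lemma A_spec (r k : ℕ) : (2 * (k : ℤ) - 2 * r - 1) * A r k = df r * g k := by
  induction r generalizing k with
  | zero =>
    have h := a_spec k
    simp only [A, df_zero]
    push_cast
    linear_combination h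
  | succ r ih =>
    cases k with
    | zero =>
      simp only [A]
      rw [df_succ]
      simp [g]
      ring
    | succ k =>
      have h1 := ih k
      have h2 := a_spec (k + 1)
      have h3 := catalan_g k
      have h4 : a (k + 1) = 2 * (catalan k : ℤ) := rfl
      have h5 := g_succ k
      simp only [A]
      rw [df_succ]
      push_cast at *
      rw [h4] at h2 ⊢
      have h6 : ((k : ℤ) + 1) ≠ 0 := by positivity
      linear_combination (8 * ((r : ℤ) + 1)) * h1 + (df r * (2 * (r : ℤ) + 3)) * h2 -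
        (8 * ((r : ℤ) + 1) * df r) * h3

lemma RR_int (n r : ℕ) : (df r : ℚ) * RR n r = ((T (A r) n : ℤ) : ℚ) := by
  simp only [RR, T]
  push_cast
  rw [mul_sum]
  refine sum_congr rfl fun k _ => ?_
  have h1 : (2 * (k : ℚ) - 2 * r - 1) * (A r k : ℚ) = df r * ((2 * k).choose k : ℚ) := by
    have := A_spec r k
    simp only [g] at this
    exact_mod_cast this
  have h2 : (2 * (k : ℚ) - 2 * r - 1) ≠ 0 := by
    have := odd_ne k r
    exact_mod_cast this
  have h3 : (df r : ℚ) * (((2 * k).choose k : ℚ) / (2 * (k : ℚ) - 2 * r - 1)) =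
      (A r k : ℚ) := by
    rw [← mul_div_assoc, ← h1, mul_div_cancel_left₀ _ h2]
  rw [← h3]
  ring

/-- The integers `(2r+1)!! R_{n,r}`. -/
def W (n r : ℕ) : ℤ := T (A r) n

/-- Integrality of `8 ((2r+3)!!)^2 F`. -/
lemma F_int (N r : ℕ) : ∃ m : ℤ, 8 * (df (r + 1) : ℚ) ^ 2 * F N (r + 1) = N * m := by
  have a1 : (df (r + 2) : ℚ) * RR N ((r : ℤ) + 1 + 1) = W N (r + 2) := by
    have := RR_int N (r + 2)
    push_cast at this
    rw [show (r : ℤ) + 1 + 1 = r + 2 by ring]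
    exact this
  have a0 : (df (r + 2) : ℚ) * RR (N - 1) ((r : ℤ) + 1 + 1) = W (N - 1) (r + 2) := by
    have := RR_int (N - 1) (r + 2)
    push_cast at this
    rw [show (r : ℤ) + 1 + 1 = r + 2 by ring]
    exact this
  have b1 : (df (r + 1) : ℚ) * RR N ((r : ℤ) + 1) = W N (r + 1) := by
    have := RR_int N (r + 1)
    push_cast at this
    exact this
  have b0 : (df (r + 1) : ℚ) * RR (N - 1) ((r : ℤ) + 1) = W (N - 1) (r + 1) := by
    have := RR_int (N - 1) (r + 1)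
    push_cast at this
    exact this
  have c1 : (df r : ℚ) * RR N ((r : ℤ) + 1 - 1) = W N r := by
    rw [show (r : ℤ) + 1 - 1 = r by ring]
    exact RR_int N r
  have c0 : (df r : ℚ) * RR (N - 1) ((r : ℤ) + 1 - 1) = W (N - 1) r := by
    rw [show (r : ℤ) + 1 - 1 = r by ring]
    exact RR_int (N - 1) r
  have f2 : (df (r + 2) : ℚ) = df (r + 1) * (2 * (r : ℚ) + 5) := by
    have := df_succ (r + 1)
    push_cast at this
    have h2 : (df (r + 1 + 1) : ℚ) = ((df (r + 1) * (2 * ((r : ℤ) + 1) + 3) : ℤ) : ℚ) := by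
      rw [this]
    push_cast at h2
    rw [h2]
    ring
  have f1 : (df (r + 1) : ℚ) = df r * (2 * (r : ℚ) + 3) := by
    have h2 : (df (r + 1) : ℚ) = ((df r * (2 * (r : ℤ) + 3) : ℤ) : ℚ) := by rw [df_succ]
    push_cast at h2
    exact h2
  obtain ⟨D1, hD1⟩ : ∃ D1 : ℤ, Q N = D1 := ⟨Dz N, rfl⟩
  obtain ⟨D0, hD0⟩ : ∃ D0 : ℤ, Q (N - 1) = D0 := ⟨Dz (N - 1), rfl⟩
  refine ⟨2 * (2 * r + 5) * (W N (r + 2) * W (N - 1) (r + 1) - W (N - 1) (r + 2) * W N (r + 1)) -
    (2 * r + 5) * (2 * r + 3) * (W N (r + 2) * W (N - 1) r - W (N - 1) (r + 2) * W N r) -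
    16 * (r + 1) * (2 * r + 3) * (W N (r + 1) * W (N - 1) r - W (N - 1) (r + 1) * W N r) +
    N * (df (r + 1) * ((3 * D1 - D0) * W (N - 1) (r + 1) - (D1 - 3 * D0) * W N (r + 1)) -
      df (r + 1) * (2 * r + 3) * ((3 * D1 - D0) * W (N - 1) r - (D1 - 3 * D0) * W N r)) +
    2 * (2 * r + 3) * df (r + 1) * (D1 * W (N - 1) (r + 1) - D0 * W N (r + 1)) -
    2 * (2 * r + 5) * (2 * r + 3) * df (r + 1) * (D1 * W (N - 1) r - D0 * W N r), ?_⟩
  simp only [F, Psi]
  rw [hD1, hD0]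
  push_cast
  rw [← a1, ← a0, ← b1, ← b0, ← c1, ← c0, f2, f1]
  ring

/-- Divisibility with the explicit multiplier `32 (r+1) ((2r+1)!!)^2`. -/
lemma explicit (N r : ℕ) (hN : 0 < N) : ∃ m : ℤ,
    32 * ((r : ℚ) + 1) * (df r : ℚ) ^ 2 * S N r = N * m := by
  induction r with
  | zero =>
    obtain ⟨n, rfl⟩ : ∃ n, N = n + 1 := ⟨N - 1, by omega⟩
    have h := closed_R n
    have hd : ((n : ℤ) + 1) ∣ (2 * (n : ℤ) + 3) ^ 2 * (8 * SR (n + 1)) :=
      ⟨EE ((n : ℤ) + 1) (Rz (n + 1)) (Dz (n + 1)) (Dz n), by linear_combination h⟩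
    have hc : IsCoprime ((n : ℤ) + 1) ((2 * (n : ℤ) + 3) ^ 2) :=
      IsCoprime.pow_right ⟨-2, 1, by ring⟩
    obtain ⟨m, hm⟩ := hc.dvd_of_dvd_mul_left hd
    refine ⟨4 * m, ?_⟩
    have hS : S (n + 1) 0 = ((SR (n + 1) : ℤ) : ℚ) := by
      simp only [S, SR]
      push_cast
      refine sum_congr rfl fun k _ => ?_
      have h1 : R k 0 = (Rz k : ℚ) := by
        have := RR_int k 0
        rw [df_zero, Int.cast_one, one_mul] at this
        rw [R_eq, Nat.cast_zero]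
        rw [Nat.cast_zero] at this
        rw [this]
        rfl
      rw [h1]
    rw [df_zero, hS]
    have hq : (8 : ℚ) * (SR (n + 1) : ℚ) = ((n : ℚ) + 1) * m := by exact_mod_cast hm
    push_cast
    linear_combination 4 * hq
  | succ r ih =>
    obtain ⟨m, hm⟩ := ih
    obtain ⟨m', hm'⟩ := F_int N r
    have h := main_identity N r
    have f1 : (df (r + 1) : ℚ) = df r * (2 * (r : ℚ) + 3) := by
      have h2 : (df (r + 1) : ℚ) = ((df r * (2 * (r : ℤ) + 3) : ℤ) : ℚ) := by rw [df_succ]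
      push_cast at h2
      exact h2
    refine ⟨(2 * r + 3) ^ 2 * m + m', ?_⟩
    rw [f1] at hm' ⊢
    push_cast
    linear_combination (8 * ((df r : ℚ) * (2 * r + 3)) ^ 2) * h + (2 * (r : ℚ) + 3) ^ 2 * hm + hm'

/-- **The answer to the question.** For every `r` there is a nonzero integer `a` such that
`a S_{n,r}` is divisible by `n` for all positive integers `n`; one can take
`a = 32 (r+1) ((2r+1)!!)^2`. -/
theorem result :
    (∀ r : ℕ, 1 ≤ r → ∃ a : ℤ, a ≠ 0 ∧ ∀ n : ℕ, 1 ≤ n → ∃ m : ℤ, (a : ℚ) * S n r = n * m) ∧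
    (∀ r n : ℕ, 1 ≤ n → ∃ m : ℤ,
      32 * ((r : ℚ) + 1) * (∏ i ∈ range (r + 1), (2 * (i : ℚ) + 1)) ^ 2 * S n r = n * m) := by
  constructor
  · intro r _
    refine ⟨32 * ((r : ℤ) + 1) * df r ^ 2, ?_, fun n hn => ?_⟩
    · have h1 := df_ne r
      have h2 : ((r : ℤ) + 1) ≠ 0 := by positivity
      exact mul_ne_zero (mul_ne_zero (by norm_num) h2) (pow_ne_zero 2 h1)
    · obtain ⟨m, hm⟩ := explicit n r (by omega)
      refine ⟨m, ?_⟩
      rw [← hm]
      push_cast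
      ring
  · intro r n hn
    obtain ⟨m, hm⟩ := explicit n r (by omega)
    refine ⟨m, ?_⟩
    rw [← hm]
    simp only [df]
    push_cast
    ring

end Pool.Agent.Results.MP_6f4751_nt.BoundedMultiplier
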